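import Mathlib

set_option autoImplicit false

namespace Pool.Agent.Results.MP_b8aaf5_co.Counter

open Multiset

def Move (s t : Multiset ℕ) : Prop :=
  (∃ a ∈ s, t = ((a - 1) ::ₘ s.erase a).filter (0 < ·)) ∨
    (s ≠ 0 ∧ t = (s.map (· - 1)).filter (0 < ·))

/-- `Out false s`: the player to move loses; `Out true s`: the player to move wins. -/
inductive Out : Bool → Multiset ℕ → Prop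
  | lose (s : Multiset ℕ) : (∀ t, Move s t → Out true t) → Out false s
  | win (s t : Multiset ℕ) : Move s t → Out false t → Out true s

def InS (k j : ℕ) : Prop :=
  if k % 2 = 1 then j % 2 = 0 else (j % 2 = 0 ∧ 2 * j < k) ∨ (j % 2 = 1 ∧ k < 2 * j)

def mv (l : List ℕ) : List (List ℕ) :=
  (l.dedup.map fun a => ((a - 1) :: l.erase a).filter (0 < ·)) ++
    if l = [] then [] else [(l.map (· - 1)).filter (0 < ·)]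

lemma mv_iff (l : List ℕ) (t : Multiset ℕ) : Move l t ↔ ∃ y ∈ mv l, t = y := by
  simp only [Move, mv, List.mem_append, List.mem_map, List.mem_dedup, List.mem_ite_nil_left,
    List.mem_singleton, mem_coe, coe_erase, cons_coe, filter_coe, map_coe, Ne, coe_eq_zero]
  constructor
  · rintro (⟨a, h, rfl⟩ | ⟨h, rfl⟩)
    · exact ⟨_, Or.inl ⟨a, h, rfl⟩, rfl⟩
    · exact ⟨_, Or.inr ⟨h, rfl⟩, rfl⟩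
  · rintro ⟨_, ⟨a, h, rfl⟩ | ⟨h, rfl⟩, rfl⟩
    · exact Or.inl ⟨a, h, rfl⟩
    · exact Or.inr ⟨h, rfl⟩

def T : List (ℕ × List ℕ) := [
  (0, []), (169, [2]), (195, [1, 1, 2]), (221, [1, 1, 1, 1, 2]), (247, [1, 1, 1, 1, 1, 1, 2]), 
  (273, [1, 1, 1, 1, 1, 1, 1, 1, 2]), (299, [1, 1, 1, 1, 1, 1, 1, 1, 1, 1, 2]), (338, [2, 2]), 
  (364, [1, 1, 2, 2]), (390, [1, 1, 1, 1, 2, 2]), (416, [1, 1, 1, 1, 1, 1, 2, 2]), 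
  (442, [1, 1, 1, 1, 1, 1, 1, 1, 2, 2]), (468, [1, 1, 1, 1, 1, 1, 1, 1, 1, 1, 2, 2]), 
  (507, [2, 2, 2]), (533, [1, 1, 2, 2, 2]), (559, [1, 1, 1, 1, 2, 2, 2]), 
  (585, [1, 1, 1, 1, 1, 1, 2, 2, 2]), (611, [1, 1, 1, 1, 1, 1, 1, 1, 2, 2, 2]), 
  (676, [2, 2, 2, 2]), (702, [1, 1, 2, 2, 2, 2]), (728, [1, 1, 1, 1, 2, 2, 2, 2]), 
  (754, [1, 1, 1, 1, 1, 1, 2, 2, 2, 2]), (780, [1, 1, 1, 1, 1, 1, 1, 1, 2, 2, 2, 2]), 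
  (845, [2, 2, 2, 2, 2]), (871, [1, 1, 2, 2, 2, 2, 2]), (897, [1, 1, 1, 1, 2, 2, 2, 2, 2]), 
  (923, [1, 1, 1, 1, 1, 1, 2, 2, 2, 2, 2]), (1014, [2, 2, 2, 2, 2, 2]), 
  (1040, [1, 1, 2, 2, 2, 2, 2, 2]), (1066, [1, 1, 1, 1, 2, 2, 2, 2, 2, 2]), 
  (1183, [2, 2, 2, 2, 2, 2, 2]), (1352, [2, 2, 2, 2, 2, 2, 2, 2]), 
  (1521, [2, 2, 2, 2, 2, 2, 2, 2, 2]), (1690, [2, 2, 2, 2, 2, 2, 2, 2, 2, 2]), 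
  (2717, [1, 2, 2, 2, 3]), (2743, [1, 1, 1, 2, 2, 2, 3]), (2769, [1, 1, 1, 1, 1, 2, 2, 2, 3]), 
  (4563, [2, 3, 3]), (4589, [1, 1, 2, 3, 3]), (4615, [1, 1, 1, 1, 2, 3, 3]), 
  (4641, [1, 1, 1, 1, 1, 1, 2, 3, 3]), (4667, [1, 1, 1, 1, 1, 1, 1, 1, 2, 3, 3]), 
  (4901, [2, 2, 2, 3, 3]), (4927, [1, 1, 2, 2, 2, 3, 3]), (4953, [1, 1, 1, 1, 2, 2, 2, 3, 3]), 
  (4979, [1, 1, 1, 1, 1, 1, 2, 2, 2, 3, 3]), (5239, [2, 2, 2, 2, 2, 3, 3]), 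
  (5265, [1, 1, 2, 2, 2, 2, 2, 3, 3]), (5291, [1, 1, 1, 1, 2, 2, 2, 2, 2, 3, 3]), 
  (5577, [2, 2, 2, 2, 2, 2, 2, 3, 3]), (5603, [1, 1, 2, 2, 2, 2, 2, 2, 2, 3, 3]), 
  (6760, [2, 3, 3, 3]), (6786, [1, 1, 2, 3, 3, 3]), (6812, [1, 1, 1, 1, 2, 3, 3, 3]), 
  (6838, [1, 1, 1, 1, 1, 1, 2, 3, 3, 3]), (6864, [1, 1, 1, 1, 1, 1, 1, 1, 2, 3, 3, 3]), 
  (7098, [2, 2, 2, 3, 3, 3]), (7124, [1, 1, 2, 2, 2, 3, 3, 3]), 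
  (7150, [1, 1, 1, 1, 2, 2, 2, 3, 3, 3]), (7176, [1, 1, 1, 1, 1, 1, 2, 2, 2, 3, 3, 3]), 
  (7436, [2, 2, 2, 2, 2, 3, 3, 3]), (7462, [1, 1, 2, 2, 2, 2, 2, 3, 3, 3]), 
  (7488, [1, 1, 1, 1, 2, 2, 2, 2, 2, 3, 3, 3]), (7774, [2, 2, 2, 2, 2, 2, 2, 3, 3, 3]), 
  (7800, [1, 1, 2, 2, 2, 2, 2, 2, 2, 3, 3, 3]), (8112, [2, 2, 2, 2, 2, 2, 2, 2, 2, 3, 3, 3]), 
  (8957, [2, 3, 3, 3, 3]), (8983, [1, 1, 2, 3, 3, 3, 3]), (9295, [2, 2, 2, 3, 3, 3, 3]), 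
  (9633, [2, 2, 2, 2, 2, 3, 3, 3, 3]), (11154, [2, 3, 3, 3, 3, 3]), 
  (11180, [1, 1, 2, 3, 3, 3, 3, 3]), (11492, [2, 2, 2, 3, 3, 3, 3, 3]), 
  (11518, [1, 1, 2, 2, 2, 3, 3, 3, 3, 3]), (11830, [2, 2, 2, 2, 2, 3, 3, 3, 3, 3]), 
  (12168, [2, 2, 2, 2, 2, 2, 2, 3, 3, 3, 3, 3]), (13351, [2, 3, 3, 3, 3, 3, 3]), 
  (13377, [1, 1, 2, 3, 3, 3, 3, 3, 3]), (13689, [2, 2, 2, 3, 3, 3, 3, 3, 3]), (28561, [4]), 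
  (28587, [1, 1, 4]), (28730, [2, 4]), (28756, [1, 1, 2, 4]), (28899, [2, 2, 4]), 
  (29068, [2, 2, 2, 4]), (29237, [2, 2, 2, 2, 4]), (29406, [2, 2, 2, 2, 2, 4]), 
  (29575, [2, 2, 2, 2, 2, 2, 4]), (29744, [2, 2, 2, 2, 2, 2, 2, 4]), 
  (29913, [2, 2, 2, 2, 2, 2, 2, 2, 4]), (30082, [2, 2, 2, 2, 2, 2, 2, 2, 2, 4]), 
  (30771, [1, 3, 4]), (30797, [1, 1, 1, 3, 4]), (31109, [1, 2, 2, 3, 4]), 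
  (31135, [1, 1, 1, 2, 2, 3, 4]), (32955, [3, 3, 4]), (32981, [1, 1, 3, 3, 4]), 
  (33007, [1, 1, 1, 1, 3, 3, 4]), (33033, [1, 1, 1, 1, 1, 1, 3, 3, 4]), 
  (33293, [2, 2, 3, 3, 4]), (33319, [1, 1, 2, 2, 3, 3, 4]), (57122, [4, 4]), 
  (57148, [1, 1, 4, 4]), (57174, [1, 1, 1, 1, 4, 4]), (57291, [2, 4, 4]), 
  (57317, [1, 1, 2, 4, 4]), (57343, [1, 1, 1, 1, 2, 4, 4]), (57460, [2, 2, 4, 4]), 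
  (57486, [1, 1, 2, 2, 4, 4]), (57512, [1, 1, 1, 1, 2, 2, 4, 4]), (57629, [2, 2, 2, 4, 4]), 
  (57798, [2, 2, 2, 2, 4, 4]), (57967, [2, 2, 2, 2, 2, 4, 4]), 
  (58136, [2, 2, 2, 2, 2, 2, 4, 4]), (58305, [2, 2, 2, 2, 2, 2, 2, 4, 4]), 
  (58474, [2, 2, 2, 2, 2, 2, 2, 2, 4, 4]), (59501, [1, 2, 3, 4, 4]), 
  (59527, [1, 1, 1, 2, 3, 4, 4]), (59553, [1, 1, 1, 1, 1, 2, 3, 4, 4]), 
  (59839, [1, 2, 2, 2, 3, 4, 4]), (61685, [2, 3, 3, 4, 4]), (61711, [1, 1, 2, 3, 3, 4, 4]), 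
  (61737, [1, 1, 1, 1, 2, 3, 3, 4, 4]), (62023, [2, 2, 2, 3, 3, 4, 4]), 
  (62049, [1, 1, 2, 2, 2, 3, 3, 4, 4]), (62361, [2, 2, 2, 2, 2, 3, 3, 4, 4]), 
  (85683, [4, 4, 4]), (85852, [2, 4, 4, 4]), (86021, [2, 2, 4, 4, 4]), 
  (86047, [1, 1, 2, 2, 4, 4, 4]), (86073, [1, 1, 1, 1, 2, 2, 4, 4, 4]), 
  (86190, [2, 2, 2, 4, 4, 4]), (86216, [1, 1, 2, 2, 2, 4, 4, 4]), 
  (86359, [2, 2, 2, 2, 4, 4, 4]), (86385, [1, 1, 2, 2, 2, 2, 4, 4, 4]), 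
  (86528, [2, 2, 2, 2, 2, 4, 4, 4]), (86697, [2, 2, 2, 2, 2, 2, 4, 4, 4]), 
  (86866, [2, 2, 2, 2, 2, 2, 2, 4, 4, 4]), (87035, [2, 2, 2, 2, 2, 2, 2, 2, 4, 4, 4]), 
  (88114, [1, 1, 1, 1, 1, 2, 3, 4, 4, 4]), (88426, [1, 1, 1, 2, 2, 2, 3, 4, 4, 4]), 
  (88738, [1, 2, 2, 2, 2, 2, 3, 4, 4, 4]), (90077, [3, 3, 4, 4, 4]), 
  (90103, [1, 1, 3, 3, 4, 4, 4]), (90129, [1, 1, 1, 1, 3, 3, 4, 4, 4]), 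
  (90155, [1, 1, 1, 1, 1, 1, 3, 3, 4, 4, 4]), (90415, [2, 2, 3, 3, 4, 4, 4]), 
  (90441, [1, 1, 2, 2, 3, 3, 4, 4, 4]), (90467, [1, 1, 1, 1, 2, 2, 3, 3, 4, 4, 4]), 
  (90753, [2, 2, 2, 2, 3, 3, 4, 4, 4]), (90779, [1, 1, 2, 2, 2, 2, 3, 3, 4, 4, 4]), 
  (91091, [2, 2, 2, 2, 2, 2, 3, 3, 4, 4, 4]), (94471, [3, 3, 3, 3, 4, 4, 4]), 
  (94497, [1, 1, 3, 3, 3, 3, 4, 4, 4]), (94523, [1, 1, 1, 1, 3, 3, 3, 3, 4, 4, 4]), 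
  (94809, [2, 2, 3, 3, 3, 3, 4, 4, 4]), (94835, [1, 1, 2, 2, 3, 3, 3, 3, 4, 4, 4]), 
  (95147, [2, 2, 2, 2, 3, 3, 3, 3, 4, 4, 4]), (98865, [3, 3, 3, 3, 3, 3, 4, 4, 4]), 
  (98891, [1, 1, 3, 3, 3, 3, 3, 3, 4, 4, 4]), (99203, [2, 2, 3, 3, 3, 3, 3, 3, 4, 4, 4]), 
  (114244, [4, 4, 4, 4]), (114270, [1, 1, 4, 4, 4, 4]), (114413, [2, 4, 4, 4, 4]), 
  (114439, [1, 1, 2, 4, 4, 4, 4]), (114582, [2, 2, 4, 4, 4, 4]), 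
  (114608, [1, 1, 2, 2, 4, 4, 4, 4]), (114751, [2, 2, 2, 4, 4, 4, 4]), 
  (114920, [2, 2, 2, 2, 4, 4, 4, 4]), (115089, [2, 2, 2, 2, 2, 4, 4, 4, 4]), 
  (115258, [2, 2, 2, 2, 2, 2, 4, 4, 4, 4]), (115427, [2, 2, 2, 2, 2, 2, 2, 4, 4, 4, 4]), 
  (115596, [2, 2, 2, 2, 2, 2, 2, 2, 4, 4, 4, 4]), (116623, [1, 2, 3, 4, 4, 4, 4]), 
  (116649, [1, 1, 1, 2, 3, 4, 4, 4, 4]), (116961, [1, 2, 2, 2, 3, 4, 4, 4, 4]), 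
  (118638, [3, 3, 4, 4, 4, 4]), (118664, [1, 1, 3, 3, 4, 4, 4, 4]), 
  (118690, [1, 1, 1, 1, 3, 3, 4, 4, 4, 4]), (118807, [2, 3, 3, 4, 4, 4, 4]), 
  (118833, [1, 1, 2, 3, 3, 4, 4, 4, 4]), (118859, [1, 1, 1, 1, 2, 3, 3, 4, 4, 4, 4]), 
  (118976, [2, 2, 3, 3, 4, 4, 4, 4]), (119002, [1, 1, 2, 2, 3, 3, 4, 4, 4, 4]), 
  (119145, [2, 2, 2, 3, 3, 4, 4, 4, 4]), (119314, [2, 2, 2, 2, 3, 3, 4, 4, 4, 4]), 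
  (119483, [2, 2, 2, 2, 2, 3, 3, 4, 4, 4, 4]), (119652, [2, 2, 2, 2, 2, 2, 3, 3, 4, 4, 4, 4]), 
  (121017, [1, 2, 3, 3, 3, 4, 4, 4, 4]), (121043, [1, 1, 1, 2, 3, 3, 3, 4, 4, 4, 4]), 
  (123032, [3, 3, 3, 3, 4, 4, 4, 4]), (123058, [1, 1, 3, 3, 3, 3, 4, 4, 4, 4]), 
  (123201, [2, 3, 3, 3, 3, 4, 4, 4, 4]), (123227, [1, 1, 2, 3, 3, 3, 3, 4, 4, 4, 4]), 
  (123370, [2, 2, 3, 3, 3, 3, 4, 4, 4, 4]), (123539, [2, 2, 2, 3, 3, 3, 3, 4, 4, 4, 4]), 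
  (123708, [2, 2, 2, 2, 3, 3, 3, 3, 4, 4, 4, 4]), (125411, [1, 2, 3, 3, 3, 3, 3, 4, 4, 4, 4]), 
  (127426, [3, 3, 3, 3, 3, 3, 4, 4, 4, 4]), (127595, [2, 3, 3, 3, 3, 3, 3, 4, 4, 4, 4]), 
  (127764, [2, 2, 3, 3, 3, 3, 3, 3, 4, 4, 4, 4]), 
  (131820, [3, 3, 3, 3, 3, 3, 3, 3, 4, 4, 4, 4]), (142805, [4, 4, 4, 4, 4]), 
  (142831, [1, 1, 4, 4, 4, 4, 4]), (142857, [1, 1, 1, 1, 4, 4, 4, 4, 4]), 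
  (142974, [2, 4, 4, 4, 4, 4]), (143000, [1, 1, 2, 4, 4, 4, 4, 4]), 
  (143026, [1, 1, 1, 1, 2, 4, 4, 4, 4, 4]), (143143, [2, 2, 4, 4, 4, 4, 4]), 
  (143169, [1, 1, 2, 2, 4, 4, 4, 4, 4]), (143195, [1, 1, 1, 1, 2, 2, 4, 4, 4, 4, 4]), 
  (143312, [2, 2, 2, 4, 4, 4, 4, 4]), (143481, [2, 2, 2, 2, 4, 4, 4, 4, 4]), 
  (145184, [1, 2, 3, 4, 4, 4, 4, 4]), (145210, [1, 1, 1, 2, 3, 4, 4, 4, 4, 4]), 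
  (145236, [1, 1, 1, 1, 1, 2, 3, 4, 4, 4, 4, 4]), (145522, [1, 2, 2, 2, 3, 4, 4, 4, 4, 4]), 
  (147199, [3, 3, 4, 4, 4, 4, 4]), (147225, [1, 1, 3, 3, 4, 4, 4, 4, 4]), 
  (147251, [1, 1, 1, 1, 3, 3, 4, 4, 4, 4, 4]), (147368, [2, 3, 3, 4, 4, 4, 4, 4]), 
  (147394, [1, 1, 2, 3, 3, 4, 4, 4, 4, 4]), (147420, [1, 1, 1, 1, 2, 3, 3, 4, 4, 4, 4, 4]), 
  (147537, [2, 2, 3, 3, 4, 4, 4, 4, 4]), (147563, [1, 1, 2, 2, 3, 3, 4, 4, 4, 4, 4]), 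
  (147706, [2, 2, 2, 3, 3, 4, 4, 4, 4, 4]), (149578, [1, 2, 3, 3, 3, 4, 4, 4, 4, 4]), 
  (149604, [1, 1, 1, 2, 3, 3, 3, 4, 4, 4, 4, 4]), (151593, [3, 3, 3, 3, 4, 4, 4, 4, 4]), 
  (151619, [1, 1, 3, 3, 3, 3, 4, 4, 4, 4, 4]), (151762, [2, 3, 3, 3, 3, 4, 4, 4, 4, 4]), 
  (151788, [1, 1, 2, 3, 3, 3, 3, 4, 4, 4, 4, 4]), (151931, [2, 2, 3, 3, 3, 3, 4, 4, 4, 4, 4]), 
  (153972, [1, 2, 3, 3, 3, 3, 3, 4, 4, 4, 4, 4]), (155987, [3, 3, 3, 3, 3, 3, 4, 4, 4, 4, 4]), 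
  (156156, [2, 3, 3, 3, 3, 3, 3, 4, 4, 4, 4, 4]), (171366, [4, 4, 4, 4, 4, 4]), 
  (171392, [1, 1, 4, 4, 4, 4, 4, 4]), (171418, [1, 1, 1, 1, 4, 4, 4, 4, 4, 4]), 
  (171444, [1, 1, 1, 1, 1, 1, 4, 4, 4, 4, 4, 4]), (171535, [2, 4, 4, 4, 4, 4, 4]), 
  (171587, [1, 1, 1, 1, 2, 4, 4, 4, 4, 4, 4]), (171704, [2, 2, 4, 4, 4, 4, 4, 4]), 
  (171730, [1, 1, 2, 2, 4, 4, 4, 4, 4, 4]), (171756, [1, 1, 1, 1, 2, 2, 4, 4, 4, 4, 4, 4]), 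
  (171873, [2, 2, 2, 4, 4, 4, 4, 4, 4]), (172042, [2, 2, 2, 2, 4, 4, 4, 4, 4, 4]), 
  (172211, [2, 2, 2, 2, 2, 4, 4, 4, 4, 4, 4]), (172380, [2, 2, 2, 2, 2, 2, 4, 4, 4, 4, 4, 4]), 
  (173745, [1, 2, 3, 4, 4, 4, 4, 4, 4]), (173771, [1, 1, 1, 2, 3, 4, 4, 4, 4, 4, 4]), 
  (174083, [1, 2, 2, 2, 3, 4, 4, 4, 4, 4, 4]), (175760, [3, 3, 4, 4, 4, 4, 4, 4]), 
  (175786, [1, 1, 3, 3, 4, 4, 4, 4, 4, 4]), (175812, [1, 1, 1, 1, 3, 3, 4, 4, 4, 4, 4, 4]), 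
  (175929, [2, 3, 3, 4, 4, 4, 4, 4, 4]), (175955, [1, 1, 2, 3, 3, 4, 4, 4, 4, 4, 4]), 
  (176098, [2, 2, 3, 3, 4, 4, 4, 4, 4, 4]), (176124, [1, 1, 2, 2, 3, 3, 4, 4, 4, 4, 4, 4]), 
  (176267, [2, 2, 2, 3, 3, 4, 4, 4, 4, 4, 4]), (176436, [2, 2, 2, 2, 3, 3, 4, 4, 4, 4, 4, 4]), 
  (178139, [1, 2, 3, 3, 3, 4, 4, 4, 4, 4, 4]), (180154, [3, 3, 3, 3, 4, 4, 4, 4, 4, 4]), 
  (180180, [1, 1, 3, 3, 3, 3, 4, 4, 4, 4, 4, 4]), (180323, [2, 3, 3, 3, 3, 4, 4, 4, 4, 4, 4]), 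
  (180492, [2, 2, 3, 3, 3, 3, 4, 4, 4, 4, 4, 4]), 
  (184548, [3, 3, 3, 3, 3, 3, 4, 4, 4, 4, 4, 4]), 
  (2056392, [4, 4, 4, 4, 4, 4, 4, 5, 5, 5, 5, 5]), 
  (2230800, [2, 2, 2, 2, 2, 3, 5, 5, 5, 5, 5, 5]), 
  (2259192, [2, 2, 2, 2, 3, 4, 5, 5, 5, 5, 5, 5]), 
  (2287584, [2, 2, 2, 3, 4, 4, 5, 5, 5, 5, 5, 5]), 
  (2315976, [2, 2, 3, 4, 4, 4, 5, 5, 5, 5, 5, 5]), 
  (2344368, [2, 3, 4, 4, 4, 4, 5, 5, 5, 5, 5, 5]), 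
  (2372760, [3, 4, 4, 4, 4, 4, 5, 5, 5, 5, 5, 5]), 
  (31188612, [5, 5, 5, 5, 5, 5, 6, 6, 6, 6, 6, 6])]

def inT (y : List ℕ) : Bool :=
  match T.lookup (y.map (13 ^ ·)).sum with
  | some z => y.isPerm z
  | none => false

lemma chk : (T.all fun p => (mv p.2).all fun t => (mv t).any fun u =>
    inT u && Nat.blt u.sum p.2.sum) = true := by decide +kernel

lemma main (n : ℕ) : ∀ p ∈ T, p.2.sum < n → Out false p.2 := by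
  induction n with
  | zero => intro _ _ h; omega
  | succ n ih =>
    intro p hp hn
    refine .lose _ fun t ht => ?_
    obtain ⟨y, hy, rfl⟩ := (mv_iff _ _).mp ht
    obtain ⟨u, hu, h⟩ := List.any_eq_true.mp (List.all_eq_true.mp (List.all_eq_true.mp chk p hp) y hy)
    rw [Bool.and_eq_true, Nat.blt_eq] at h
    refine .win _ u ((mv_iff _ _).mpr ⟨u, hu, rfl⟩) ?_
    have h1 := h.1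
    unfold inT at h1
    split at h1
    · rename_i z hz
      have h2 := List.isPerm_iff.mp h1
      obtain ⟨l1, l2, h3, -⟩ := List.lookup_eq_some_iff.mp hz
      rw [coe_eq_coe.mpr h2]
      exact ih (_, z) (h3 ▸ List.mem_append_right _ List.mem_cons_self) (by have := h2.sum_eq; simp only; omega)
    · exact absurd h1 (by simp)

theorem result : ∃ (k : ℕ) (s : Multiset ℕ), 3 ≤ k ∧ card s = k ∧ (∀ a ∈ s, (k + 2) / 3 < a) ∧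
    Out false s ∧ ¬ InS k (countP Odd s) :=
  ⟨12, ↑[5, 5, 5, 5, 5, 5, 6, 6, 6, 6, 6, 6], by decide, rfl, by decide,
    main 99 (84 * 13 ^ 5, _) (by decide +kernel) (by decide),
    by unfold InS; decide⟩

end Pool.Agent.Results.MP_b8aaf5_co.Counter
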